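import Pool.Agent.W322.HB.Tools

/-! Project HB (helper322), part A: removal of the large elements of `Ls \ Ds`. -/

set_option autoImplicit false

namespace Pool.Agent.W959.HB

open Finset Pool.Agent.W322.HB
open Pool.Agent.H115R3.DT (RT St Ls Ds Us nb Pat)

theorem find_z {C κ Q u T S g₁ g₂ g₃ G : ℕ} (h : Num C κ Q u T S g₁ g₂ g₃ G) (A : Finset ℕ)
    (hA : (A.filter (fun e => ¬ Nat.Coprime e G)).card ≤ u) (d : ℕ) :
    ∃ z, (C - 1) * T ≤ z ∧ z < C * T ∧ z ∉ A ∧ z + d ∉ A := by
  obtain ⟨t, ht1, ht2, ht3, ht4, -⟩ := crt3 g₁ g₂ 1 0 (d * (g₂ - 1)) 0 ((C - 1) * T) h.c12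
    (Nat.coprime_one_right _) (Nat.coprime_one_right _) h.p1.pos h.p2.pos one_pos
  have hg1 : g₁ ∣ t := (Nat.modEq_zero_iff_dvd).1 ht3
  have hg2 : g₂ ∣ t + d := by
    have h1 : t + d ≡ d * (g₂ - 1) + d [MOD g₂] := ht4.add_right d
    have e : d * (g₂ - 1) + d = d * g₂ := by
      have h2 := h.p2.pos
      obtain ⟨q, rfl⟩ : ∃ q, g₂ = q + 1 := ⟨g₂ - 1, by omega⟩
      rw [Nat.add_sub_cancel]
      ring
    rw [e] at h1
    exact (Nat.modEq_zero_iff_dvd).1 (h1.trans ((Nat.modEq_zero_iff_dvd).2 (dvd_mul_left _ _)))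
  obtain ⟨M, hM⟩ : ∃ M, M = g₁ * g₂ := ⟨_, rfl⟩
  have hMpos : 0 < M := by rw [hM]; exact Nat.mul_pos h.p1.pos h.p2.pos
  have hc : ∀ b : Bool, ((range (2 * u + 1)).filter
      (fun j => t + M * j + (bif b then d else 0) ∈ A)).card ≤ u := by
    intro b
    refine bad_card G u (2 * u) A hA (fun j => t + M * j + (bif b then d else 0)) ?_ ?_
    · intro i _ j _ hij
      have hij' : t + M * i + (bif b then d else 0) = t + M * j + (bif b then d else 0) := hij
      have h1 : M * i = M * j := by omega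
      exact Nat.eq_of_mul_eq_mul_left hMpos h1
    · intro j _
      apply h.nc
      cases b
      · left
        simp only [cond_false, add_zero]
        exact dvd_add hg1 (by rw [hM, mul_assoc]; exact dvd_mul_right _ _)
      · right; left
        simp only [cond_true]
        have e : t + M * j + d = (t + d) + M * j := by ring
        rw [e]
        exact dvd_add hg2 (by rw [hM]; exact (dvd_mul_left _ _).mul_right _)
  obtain ⟨j, hj, hjB⟩ := pick (2 * u) (Finset.univ : Finset Bool)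
    (fun b => (range (2 * u + 1)).filter (fun j => t + M * j + (bif b then d else 0) ∈ A)) (by
      rw [Fintype.sum_bool]
      have h1 := hc true
      have h2 := hc false
      omega)
  have hjm : j ∈ range (2 * u + 1) := by rw [mem_range]; omega
  have hT : M * (2 * u + 1) ≤ T := by
    refine le_trans ?_ h.hT
    refine Nat.mul_le_mul ?_ ?_
    · rw [h.hG, ← hM, mul_assoc]
      exact Nat.le_mul_of_pos_right _ (Nat.mul_pos h.p3.pos h.hκ)
    · have h1 : 2 * u ≤ 2 * C * u := Nat.mul_le_mul_right _ (by have := h.hC; omega)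
      have h2 : 1 ≤ (C + 2) ^ 2 := Nat.one_le_pow _ _ (by omega)
      omega
  refine ⟨t + M * j, by omega, ?_, ?_, ?_⟩
  · have h1 : M * j ≤ M * (2 * u) := Nat.mul_le_mul_left _ hj
    have h2 : M * (2 * u + 1) = M * (2 * u) + M := by ring
    have h3 : C * T = (C - 1) * T + T := by
      have := h.hC
      obtain ⟨q, rfl⟩ : ∃ q, C = q + 1 := ⟨C - 1, by omega⟩
      rw [Nat.add_sub_cancel]
      ring
    rw [← hM, mul_one] at ht2
    omega
  · intro h1
    exact hjB false (mem_univ _) (mem_filter.2 ⟨hjm, h1⟩)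
  · intro h1
    exact hjB true (mem_univ _) (mem_filter.2 ⟨hjm, h1⟩)

section
variable {V : Type} [DecidableEq V] {R : RT V}

omit [DecidableEq V] in
theorem dp_le {n : ℕ} {C : ℕ} {p : ℕ → ℕ} {e : ℕ → V} (hS : Shape C n p) (hB : Br R n p e) :
    ∀ i, i < n → R.dp (e i) ≤ i + 1 := by
  intro i
  induction i using Nat.strong_induction_on with
  | _ i ih =>
    intro hi
    have h1 := R.dp_par (e i) (hB.ne i hi)
    rcases Nat.eq_zero_or_pos i with rfl | h0
    · rw [hB.top, R.dp_v] at h1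
      omega
    · rw [hB.par i h0 hi] at h1
      have h2 := hS.lt i h0 hi
      have h3 := ih (p i) h2 (by omega)
      omega

theorem step (hA : TaskAdd) (hG : TaskGen) {m C n κ Q u T S g₁ g₂ g₃ G N₀ : ℕ} {p : ℕ → ℕ}
    {W : Finset V} {f : V → ℕ} {rs : Finset V} {e : V → ℕ → V}
    (hN : Num C κ Q u T S g₁ g₂ g₃ G) (hS : Shape C n p) (hI : Inv R m C n p G u W f rs e)
    (hm : N₀ + S ≤ m) {r : V} (hr : r ∈ rs) {d : ℕ} (hd : d ∈ Ls R W f \ Ds R W f) (hdS : S < d)
    (hdN : d ≤ N₀) :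
    ∃ f' : V → ℕ, Inv R m C n p G u (W ∪ vs n (e r)) f' (rs.erase r) e ∧ (∀ x ∈ W, f' x = f x) ∧
      (∀ x ∈ Ls R (W ∪ vs n (e r)) f' \ Ds R (W ∪ vs n (e r)) f',
        (x ∈ Ls R W f \ Ds R W f ∧ x ≠ d) ∨ x ≤ S) ∧
      (∀ x ∈ Ds R (W ∪ vs n (e r)) f' \ Ls R (W ∪ vs n (e r)) f',
        x ∈ Ds R W f \ Ls R W f ∨ x ≤ N₀ + S) ∧
      (Ds R (W ∪ vs n (e r)) f' \ Ls R (W ∪ vs n (e r)) f').card ≤
        (Ds R W f \ Ls R W f).card + C ∧
      Mv Q R (W ∪ vs n (e r)) f' - Mv Q R W f ∈ HH Q n p := by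
  have hB := hI.fam.br r hr
  have hdis := hI.fam.disW r hr
  have hst := hI.st
  have h2n := hS.two
  have hnC := hS.le
  have hTpos := hN.Tpos
  have hrs : 1 ≤ rs.card := Finset.card_pos.2 ⟨r, hr⟩
  have hnum : nb G R W f + 2 * C ≤ u := by
    have h1 := hI.num
    have h2 : 2 * C * 1 ≤ 2 * C * rs.card := Nat.mul_le_mul_left _ hrs
    omega
  obtain ⟨z, hz1, hz2, hz3, hz4⟩ := find_z hN (Us R W f) (by
    have : ((Us R W f).filter (fun e => ¬ Nat.Coprime e G)).card = nb G R W f := rfl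
    omega) d
  have hCT : (C - 1) * T + T = C * T := by
    obtain ⟨q, rfl⟩ : ∃ q, C = q + 1 := ⟨C - 1, by omega⟩
    rw [Nat.add_sub_cancel]
    ring
  have hz0 : 1 ≤ z := by
    have h1 : 1 * T ≤ (C - 1) * T := Nat.mul_le_mul_right _ (by omega)
    omega
  have hSC : (C + 2) * T ≤ S := by
    rw [hN.hS]
    exact Nat.mul_le_mul_right _ (by omega)
  have hSC' : C * T + 2 * T ≤ S := by
    have : (C + 2) * T = C * T + 2 * T := by ring
    omega
  have hdL := (mem_sdiff.1 hd).1
  have hdD := (mem_sdiff.1 hd).2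
  have hz3' : z ∉ Ls R W f ∧ z ∉ Ds R W f := by
    unfold Us at hz3
    rw [mem_union, not_or] at hz3
    exact hz3
  have hz4' : z + d ∉ Ls R W f ∧ z + d ∉ Ds R W f := by
    unfold Us at hz4
    rw [mem_union, not_or] at hz4
    exact hz4
  have hnW : ∀ i < n, e r i ∉ W := fun i hi h1 =>
    (Finset.disjoint_left.1 hdis) (mem_vs.2 ⟨i, hi, rfl⟩) h1
  have hp1 : p 1 = 0 := by
    have := hS.lt 1 one_pos (by omega)
    omega
  have hpar1 : R.par (e r 1) = e r 0 := by
    rw [hB.par 1 one_pos (by omega), hp1]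
  have h01 : e r 0 ≠ e r 1 := fun h1 => by
    have := hB.inj 0 (by omega) 1 (by omega) h1
    omega
  -- first vertex
  have edif1 : Int.natAbs (((z + d : ℕ) : ℤ) - (f (R.par (e r 0)) : ℤ)) = z + d := by
    rw [hB.top, hst.f0]
    omega
  have a1 := hA V R m W f (e r 0) (z + d) hst (hnW 0 (by omega)) (by rw [hB.top]; exact hst.root)
    (by omega) (by omega) hz4'.1 (by rw [edif1]; exact hz4'.2)
  rw [edif1] at a1
  obtain ⟨st1, L1, D1⟩ := a1
  set f1 := Function.update f (e r 0) (z + d) with hf1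
  set W1 := insert (e r 0) W with hW1
  have hf1e : f1 (e r 0) = z + d := Function.update_self _ _ _
  have hf1W : ∀ x ∈ W, f1 x = f x := by
    intro x hx
    refine Function.update_of_ne ?_ _ _
    rintro rfl
    exact hnW 0 (by omega) hx
  -- second vertex
  have h1W1 : e r 1 ∉ W1 := by
    rw [hW1, mem_insert, not_or]
    exact ⟨h01.symm, hnW 1 (by omega)⟩
  have edif2 : Int.natAbs (((z : ℕ) : ℤ) - (f1 (R.par (e r 1)) : ℤ)) = d := by
    rw [hpar1, hf1e]
    push_cast
    omega
  have a2 := hA V R m W1 f1 (e r 1) z st1 h1W1 (by rw [hpar1]; exact mem_insert_self _ _)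
    hz0 (by omega) (by
      rw [L1, mem_insert, not_or]
      exact ⟨by omega, hz3'.1⟩) (by
      rw [edif2, D1, mem_insert, not_or]
      exact ⟨by omega, hdD⟩)
  rw [edif2] at a2
  obtain ⟨st2, L2, D2⟩ := a2
  set f2 := Function.update f1 (e r 1) z with hf2
  set W2 := insert (e r 1) W1 with hW2
  have hf2e1 : f2 (e r 1) = z := Function.update_self _ _ _
  have hf2e0 : f2 (e r 0) = z + d := by
    rw [hf2, Function.update_of_ne h01, hf1e]
  have hf2W : ∀ x ∈ W, f2 x = f x := by
    intro x hx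
    rw [hf2, Function.update_of_ne, hf1W x hx]
    rintro rfl
    exact hnW 1 (by omega) hx
  rw [L1] at L2
  rw [D1] at D2
  -- the other vertices
  set I : Finset ℕ := (range n).filter (fun i => 2 ≤ i) with hI'
  set U : Finset V := I.image (e r) with hU
  have hmI : ∀ i, i ∈ I ↔ i < n ∧ 2 ≤ i := fun i => by rw [hI', mem_filter, mem_range]
  have hUinj : Set.InjOn (e r) (I : Set ℕ) := by
    intro i hi j hj hij
    rw [mem_coe, hmI] at hi hj
    exact hB.inj i hi.1 j hj.1 hij
  have hUc : U.card + 2 = n := by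
    rw [hU, card_image_of_injOn hUinj]
    have : I = Finset.Ico 2 n := by
      ext i
      rw [hmI, Finset.mem_Ico]
      omega
    rw [this, Nat.card_Ico]
    omega
  have hUW2 : Disjoint U W2 := by
    rw [Finset.disjoint_left]
    intro x hx hx'
    obtain ⟨i, hi, rfl⟩ := mem_image.1 hx
    rw [hmI] at hi
    rw [hW2, mem_insert, hW1, mem_insert] at hx'
    rcases hx' with h1 | h1 | h1
    · have := hB.inj i hi.1 1 (by omega) h1
      omega
    · have := hB.inj i hi.1 0 (by omega) h1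
      omega
    · exact hnW i hi.1 h1
  have hparU : ∀ i, i < n → 2 ≤ i → R.par (e r i) = e r (p i) ∧ p i < i := fun i hi hi2 =>
    ⟨hB.par i (by omega) hi, hS.lt i (by omega) hi⟩
  have hpmem : ∀ x ∈ U, R.par x ∈ W2 ∪ U := by
    intro x hx
    obtain ⟨i, hi, rfl⟩ := mem_image.1 hx
    rw [hmI] at hi
    obtain ⟨h1, h2⟩ := hparU i hi.1 hi.2
    rw [h1, mem_union, hW2, mem_insert, hW1, mem_insert]
    rcases Nat.lt_or_ge (p i) 2 with h3 | h3
    · left
      interval_cases (p i)
      · right; left; rfl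
      · left; rfl
    · right
      exact mem_image_of_mem _ ((hmI _).2 ⟨by omega, h3⟩)
  have hparne : ∀ x ∈ U, R.par x ≠ R.v := by
    intro x hx
    obtain ⟨i, hi, rfl⟩ := mem_image.1 hx
    rw [hmI] at hi
    obtain ⟨h1, h2⟩ := hparU i hi.1 hi.2
    rw [h1]
    exact hB.ne _ (by omega)
  have hnb2 : nb G R W2 f2 ≤ nb G R W f + 3 := by
    have h1 : Us R W2 f2 ⊆ Us R W f ∪ {z, z + d, d} := by
      unfold Us
      rw [L2, D2]
      intro x
      simp only [mem_union, mem_insert, mem_singleton]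
      tauto
    refine (nb_le h1).trans ?_
    have h2 : ({z, z + d, d} : Finset ℕ).card ≤ 3 := Finset.card_le_three
    omega
  have hdp0 : R.dp (e r 0) = 1 := by
    rw [R.dp_par _ (hB.ne 0 (by omega)), hB.top, R.dp_v]
  have hdp1 : R.dp (e r 1) = 2 := by
    rw [R.dp_par _ (hB.ne 1 (by omega)), hpar1, hdp0]
  obtain ⟨f3, g1, g2, g3, g4, g5, g6, g7, g8⟩ := hG V R m C κ Q u T S g₁ g₂ g₃ G W2 f2 U
    (fun _ => 0) hN st2 (by omega) hUW2 hpmem (by
      intro x hx
      obtain ⟨i, hi, rfl⟩ := mem_image.1 hx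
      rw [hmI] at hi
      have := dp_le hS hB i hi.1
      omega) (by
      intro x hx hx' _
      obtain ⟨i, hi, rfl⟩ := mem_image.1 hx
      rw [hmI] at hi
      obtain ⟨h1, h2⟩ := hparU i hi.1 hi.2
      have h3 : p i < 2 := by
        by_contra h4
        rw [h1] at hx'
        exact (Finset.disjoint_left.1 hUW2)
          (mem_image_of_mem _ ((hmI _).2 ⟨by omega, by omega⟩)) hx'
      have h5 := R.dp_par _ (hB.ne i hi.1)
      rw [h1] at h5 ⊢
      have h6 : p i = 0 ∨ p i = 1 := by omega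
      rcases h6 with h6 | h6
      · rw [h6, hdp0] at h5
        rw [h6, hf2e0, h5]
        have : C + 2 - (1 + 1) = C := by omega
        rw [this]
        omega
      · rw [h6, hdp1] at h5
        rw [h6, hf2e1, h5]
        have : C + 2 - (2 + 1) = C - 1 := by omega
        rw [this]
        exact hz1) (by
      have : (C + 1) * T ≤ (C + 2) * T := Nat.mul_le_mul_right _ (by omega)
      omega)
  have hWU : W2 ∪ U = W ∪ vs n (e r) := by
    ext x
    rw [mem_union, mem_union, hW2, mem_insert, hW1, mem_insert, mem_vs]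
    constructor
    · rintro ((rfl | rfl | h) | h)
      · exact Or.inr ⟨1, by omega, rfl⟩
      · exact Or.inr ⟨0, by omega, rfl⟩
      · exact Or.inl h
      · obtain ⟨i, hi, rfl⟩ := mem_image.1 h
        rw [hmI] at hi
        exact Or.inr ⟨i, hi.1, rfl⟩
    · rintro (h | ⟨i, hi, rfl⟩)
      · exact Or.inl (Or.inr (Or.inr h))
      · rcases Nat.lt_or_ge i 2 with h3 | h3
        · left
          interval_cases i
          · right; left; rfl
          · left; rfl
        · right
          exact mem_image_of_mem _ ((hmI _).2 ⟨hi, h3⟩)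
  rw [hWU] at g2 g5 g6 g7 g8
  have hf3le : ∀ x ∈ U, f3 x ≤ S := by
    intro x hx
    have h1 := (g3 x hx).2.1
    have h2 : (C + 2 - R.dp x) * T ≤ (C + 2) * T := Nat.mul_le_mul_right _ (by omega)
    omega
  have hf3par : ∀ x ∈ U, f3 (R.par x) ≤ N₀ + S := by
    intro x hx
    rcases mem_union.1 (hpmem x hx) with h1 | h1
    · obtain ⟨i, hi, rfl⟩ := mem_image.1 hx
      rw [hmI] at hi
      obtain ⟨h3, h4⟩ := hparU i hi.1 hi.2
      rw [g1 _ h1]
      rw [h3] at h1 ⊢
      have h5 : p i < 2 := by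
        by_contra h6
        exact (Finset.disjoint_left.1 hUW2)
          (mem_image_of_mem _ ((hmI _).2 ⟨by omega, by omega⟩)) h1
      have h6 : p i = 0 ∨ p i = 1 := by omega
      rcases h6 with h6 | h6
      · rw [h6, hf2e0]
        omega
      · rw [h6, hf2e1]
        omega
    · have := hf3le _ h1
      omega
  refine ⟨f3, hI.step hr g2 (by omega), ?_, ?_, ?_, ?_, ?_⟩
  · intro x hx
    rw [g1 x (mem_insert_of_mem (mem_insert_of_mem hx)), hf2W x hx]
  · intro x hx
    rcases g6 x hx with h1 | ⟨y, hy, -, rfl⟩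
    · rw [L2, D2, mem_sdiff, mem_insert, mem_insert, mem_insert, mem_insert] at h1
      obtain ⟨h1, h2⟩ := h1
      push Not at h2
      rcases h1 with rfl | rfl | h1
      · right; omega
      · exact absurd rfl h2.2.1
      · left
        exact ⟨mem_sdiff.2 ⟨h1, h2.2.2⟩, h2.1⟩
    · right
      exact hf3le y hy
  · intro x hx
    rcases g7 x hx with h1 | ⟨y, hy, -, rfl⟩
    · rw [L2, D2, mem_sdiff, mem_insert, mem_insert, mem_insert, mem_insert] at h1
      obtain ⟨h1, h2⟩ := h1
      push Not at h2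
      rcases h1 with rfl | rfl | h1
      · exact absurd hdL h2.2.2
      · exact absurd rfl h2.2.1
      · left
        exact mem_sdiff.2 ⟨h1, h2.2.2⟩
    · right
      exact (Nat.sub_le _ _).trans (hf3par y hy)
  · have hsub : Ds R (W ∪ vs n (e r)) f3 \ Ls R (W ∪ vs n (e r)) f3 ⊆
        (Ds R W f \ Ls R W f) ∪ U.image (fun y => f3 (R.par y) - f3 y) := by
      intro x hx
      rcases g7 x hx with h1 | ⟨y, hy, -, rfl⟩
      · rw [L2, D2, mem_sdiff, mem_insert, mem_insert, mem_insert, mem_insert] at h1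
        obtain ⟨h1, h2⟩ := h1
        push Not at h2
        rcases h1 with rfl | rfl | h1
        · exact absurd hdL h2.2.2
        · exact absurd rfl h2.2.1
        · exact mem_union_left _ (mem_sdiff.2 ⟨h1, h2.2.2⟩)
      · exact mem_union_right _ (mem_image_of_mem _ hy)
    refine (card_le_card hsub).trans ((card_union_le _ _).trans ?_)
    have h1 : (U.image (fun y => f3 (R.par y) - f3 y)).card ≤ U.card := card_image_le
    omega
  · have hMv2 : Mv Q R W2 f2 = Mv Q R W f + (sg Q ((d : ℕ) : ZMod Q) - sg Q ((z : ℕ) : ZMod Q)) := by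
      unfold Mv
      rw [L2, D2, Finset.sum_insert, Finset.sum_insert hz4'.2, Finset.sum_insert,
        Finset.sum_insert hz4'.1]
      · abel
      · rw [mem_insert, not_or]
        exact ⟨by omega, hz3'.1⟩
      · rw [mem_insert, not_or]
        exact ⟨by omega, hdD⟩
    have hfil : U.filter (fun x => R.par x ≠ R.v) = U := Finset.filter_true_of_mem hparne
    rw [hfil, hMv2, hU, Finset.sum_image (fun i hi j hj hij => hUinj hi hj hij)] at g8
    have hEf : Mv Q R (W ∪ vs n (e r)) f3 - Mv Q R W f =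
        Ef Q n p (fun j => (f3 (e r j) : ZMod Q)) := by
      rw [g8]
      have hins : (range n).filter (fun i => 0 < i) = insert 1 I := by
        ext i
        rw [mem_filter, mem_range, mem_insert, hmI]
        omega
      unfold Ef
      rw [hins, Finset.sum_insert (by rw [hmI]; omega)]
      have e0 : f3 (e r 0) = z + d := by
        rw [g1 _ (mem_insert_of_mem (mem_insert_self _ _)), hf2e0]
      have e1 : f3 (e r 1) = z := by
        rw [g1 _ (mem_insert_self _ _), hf2e1]
      have hsum : ∑ i ∈ I, (sg Q ((f3 (R.par (e r i)) : ZMod Q) - 0) - sg Q 0) =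
          ∑ i ∈ I, (sg Q ((f3 (e r (p i)) : ZMod Q) - (f3 (e r i) : ZMod Q)) -
            sg Q (f3 (e r i) : ZMod Q)) := by
        refine Finset.sum_congr rfl (fun i hi => ?_)
        have h1 := (g3 _ (mem_image_of_mem (e r) hi)).2.2
        rw [hmI] at hi
        rw [h1, (hparU i hi.1 hi.2).1]
      beta_reduce
      rw [hsum, hp1, e0, e1]
      have e2 : ((z + d : ℕ) : ZMod Q) - (z : ZMod Q) = ((d : ℕ) : ZMod Q) := by
        push_cast
        ring
      rw [e2]
      abel
    rw [hEf]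
    exact AddSubgroup.subset_closure ⟨_, rfl⟩

theorem loop (hA : TaskAdd) (hG : TaskGen) {m C n κ Q u T S g₁ g₂ g₃ G N₀ : ℕ} {p : ℕ → ℕ}
    {e : V → ℕ → V} (hN : Num C κ Q u T S g₁ g₂ g₃ G) (hS : Shape C n p) (hm : N₀ + S ≤ m) :
    ∀ (k : ℕ) (W : Finset V) (f : V → ℕ) (rs : Finset V), Inv R m C n p G u W f rs e →
      (∀ x ∈ Ls R W f \ Ds R W f, x ≤ N₀ ∨ x ≤ S) → (∀ x ∈ Ds R W f \ Ls R W f, x ≤ N₀ + S) →
      ((Ls R W f \ Ds R W f).filter (fun x => S < x)).card ≤ k → k ≤ rs.card →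
      ∃ (f' : V → ℕ) (rs' : Finset V), rs' ⊆ rs ∧ rs.card ≤ rs'.card + k ∧
        Inv R m C n p G u (Wn n W rs rs' e) f' rs' e ∧ (∀ x ∈ W, f' x = f x) ∧
        (∀ x ∈ Ls R (Wn n W rs rs' e) f' \ Ds R (Wn n W rs rs' e) f', x ≤ S) ∧
        (∀ x ∈ Ds R (Wn n W rs rs' e) f' \ Ls R (Wn n W rs rs' e) f', x ≤ N₀ + S) ∧
        (Ds R (Wn n W rs rs' e) f' \ Ls R (Wn n W rs rs' e) f').card ≤
          (Ds R W f \ Ls R W f).card + C * k ∧
        Mv Q R (Wn n W rs rs' e) f' - Mv Q R W f ∈ HH Q n p := by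
  intro k
  induction k with
  | zero =>
    intro W f rs hI hL hD hk _
    refine ⟨f, rs, Finset.Subset.refl _, le_rfl, ?_⟩
    rw [Wn_self]
    refine ⟨hI, fun _ _ => rfl, fun x hx => ?_, hD, by omega, ?_⟩
    · by_contra hcon
      have h1 := Finset.card_eq_zero.1 (Nat.le_zero.1 hk)
      have h2 : x ∈ (Ls R W f \ Ds R W f).filter (fun x => S < x) := mem_filter.2 ⟨hx, by omega⟩
      rw [h1] at h2
      exact Finset.notMem_empty _ h2
    · rw [sub_self]
      exact AddSubgroup.zero_mem _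
  | succ k ih =>
    intro W f rs hI hL hD hk hrs
    by_cases hne : ((Ls R W f \ Ds R W f).filter (fun x => S < x)).Nonempty
    swap
    · rw [Finset.not_nonempty_iff_eq_empty] at hne
      refine ⟨f, rs, Finset.Subset.refl _, by omega, ?_⟩
      rw [Wn_self]
      refine ⟨hI, fun _ _ => rfl, fun x hx => ?_, hD, by omega, ?_⟩
      · by_contra hcon
        have h2 : x ∈ (Ls R W f \ Ds R W f).filter (fun x => S < x) := mem_filter.2 ⟨hx, by omega⟩
        rw [hne] at h2
        exact Finset.notMem_empty _ h2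
      · rw [sub_self]
        exact AddSubgroup.zero_mem _
    · obtain ⟨d, hd⟩ := hne
      obtain ⟨hd1, hd2⟩ := mem_filter.1 hd
      obtain ⟨r, hr⟩ : rs.Nonempty := Finset.card_pos.1 (by omega)
      obtain ⟨f1, c1, c2, c3, c4, c5, c6⟩ := step (N₀ := N₀) hA hG hN hS hI hm hr hd1 hd2 (by
        rcases hL d hd1 with h | h
        · exact h
        · omega)
      have hcr : (rs.erase r).card + 1 = rs.card := Finset.card_erase_add_one hr
      obtain ⟨f', rs', b1, b2, b3, b4, b5, b6, b7, b8⟩ := ih (W ∪ vs n (e r)) f1 (rs.erase r) c1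
        (fun x hx => by
          rcases c3 x hx with h | h
          · exact hL x h.1
          · exact Or.inr h)
        (fun x hx => by
          rcases c4 x hx with h | h
          · exact hD x h
          · exact h)
        (by
          have h1 : (Ls R (W ∪ vs n (e r)) f1 \ Ds R (W ∪ vs n (e r)) f1).filter
              (fun x => S < x) ⊆ ((Ls R W f \ Ds R W f).filter (fun x => S < x)).erase d := by
            intro x hx
            obtain ⟨hx1, hx2⟩ := mem_filter.1 hx
            rcases c3 x hx1 with h | h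
            · exact mem_erase.2 ⟨h.2, mem_filter.2 ⟨h.1, hx2⟩⟩
            · omega
          have h2 := card_le_card h1
          rw [card_erase_of_mem hd] at h2
          omega) (by omega)
      have hWn : Wn n (W ∪ vs n (e r)) (rs.erase r) rs' e = Wn n W rs rs' e := by
        rw [← Wn_erase hr, Wn_trans (Finset.erase_subset _ _) b1]
      rw [hWn] at b3 b5 b6 b7 b8
      refine ⟨f', rs', b1.trans (Finset.erase_subset _ _), by omega, b3, fun x hx => ?_, b5, b6,
        ?_, ?_⟩
      · rw [b4 x (mem_union_left _ hx), c2 x hx]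
      · have : C * (k + 1) = C * k + C := by ring
        omega
      · have h1 := AddSubgroup.add_mem _ b8 c6
        have e : Mv Q R (Wn n W rs rs' e) f' - Mv Q R (W ∪ vs n (e r)) f1 +
            (Mv Q R (W ∪ vs n (e r)) f1 - Mv Q R W f) =
            Mv Q R (Wn n W rs rs' e) f' - Mv Q R W f := by abel
        rwa [e] at h1

end

theorem taskA (hA : TaskAdd) (_hV0 : TaskV0) : TaskA := by
  intro hG V _ R m C n κ Q u T S g₁ g₂ g₃ G N₀ p W f rs e hN hS hI hU hm hrs
  have hLU : ∀ x ∈ Ls R W f \ Ds R W f, x ≤ N₀ ∨ x ≤ S := fun x hx =>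
    Or.inl (hU x (mem_union_left _ (mem_sdiff.1 hx).1))
  have hDU : ∀ x ∈ Ds R W f \ Ls R W f, x ≤ N₀ + S := fun x hx =>
    (hU x (mem_union_right _ (mem_sdiff.1 hx).1)).trans (Nat.le_add_right _ _)
  exact loop hA hG hN hS hm _ W f rs hI hLU hDU (card_filter_le _ _) hrs

end Pool.Agent.W959.HB
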